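import Pool.Agent.H31.PC.Targets

/-!
# MP_6e60ff_nt: division of a ternary form by a variable
-/

namespace Pool.Agent.H89.PC.DIV

open Finset MvPolynomial Pool.Agent.H31.PC Pool.Agent.H31.RZ

/-- division by a variable -/
theorem pf_DIV : T_DIV := by
  intro d R P i hP h0
  rw [mem_FF] at hP
  obtain ⟨hh, hc⟩ := hP
  have hX : X i * P.divMonomial (Finsupp.single i 1) = P := by
    ext μ
    rw [coeff_X_mul']
    split_ifs with h
    · rw [coeff_divMonomial]
      congr 1
      have h1 : Finsupp.single i 1 ≤ μ := by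
        rw [Finsupp.single_le_iff]
        exact Nat.one_le_iff_ne_zero.2 (Finsupp.mem_support_iff.1 h)
      exact add_tsub_cancel_of_le h1
    · exact (h0 μ (Finsupp.notMem_support_iff.1 h)).symm
  refine ⟨P.divMonomial (Finsupp.single i 1), ?_, hX.symm⟩
  rw [mem_FF]
  refine ⟨?_, fun ν => ?_⟩
  · intro ν hν
    rw [coeff_divMonomial] at hν
    have h1 := hh hν
    rw [map_add] at h1
    simp only [Finsupp.weight_single, Pi.one_apply, smul_eq_mul, mul_one] at h1
    omega
  · rw [coeff_divMonomial]
    exact hc _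

end Pool.Agent.H89.PC.DIV
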